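import Pool.Agent.KS6_41.DA.Defs

/-!
# D'Arcais polynomials on the imaginary axis: the coefficient integral

The calculus of the functions `g` and `S j` in the right half plane, and the formula for `P x n` as an
integral over a period.
-/

set_option autoImplicit false

namespace Pool.Agent.KS6_41.DA.M1

open Complex Filter Topology MeasureTheory Set
open scoped Real ArithmeticFunction.sigma

/-! ### Summability -/

theorem sigma_le (m : ℕ) : (σ 1 (m + 1) : ℝ) ≤ ((m : ℝ) + 1) ^ 2 := by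
  have := ArithmeticFunction.sigma_le_pow_succ 1 (m + 1)
  exact_mod_cast this

theorem summable_base (j : ℕ) {a : ℝ} (ha : 0 < a) :
    Summable fun m : ℕ => ((m : ℝ) + 1) ^ j * Real.exp (-((m : ℝ) + 1) * a) := by
  have h := summable_pow_mul_geometric_of_norm_lt_one j (r := Real.exp (-a)) (by
    rw [Real.norm_eq_abs, abs_of_pos (Real.exp_pos _)]; exact Real.exp_lt_one_iff.2 (by linarith))
  have h2 := (summable_nat_add_iff 1).2 h
  refine h2.congr fun m => ?_
  rw [← Real.exp_nat_mul]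
  push_cast
  congr 2
  ring

theorem norm_exp_le {a : ℝ} {s : ℂ} (hs : a ≤ s.re) (m : ℕ) :
    ‖exp (-((m : ℂ) + 1) * s)‖ ≤ Real.exp (-((m : ℝ) + 1) * a) := by
  rw [Complex.norm_exp, Real.exp_le_exp]
  have : (-((m : ℂ) + 1) * s).re = -((m : ℝ) + 1) * s.re := by
    simp
  rw [this]
  have hm : (0 : ℝ) ≤ m := m.cast_nonneg
  nlinarith

theorem norm_sigma (m : ℕ) : ‖(σ 1 (m + 1) : ℂ)‖ ≤ ((m : ℝ) + 1) ^ 2 := by
  have : ‖(σ 1 (m + 1) : ℂ)‖ = (σ 1 (m + 1) : ℝ) := by
    rw [Complex.norm_natCast]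
  rw [this]
  exact sigma_le m

theorem norm_cast (m : ℕ) : ‖((m : ℂ) + 1)‖ = (m : ℝ) + 1 := by
  have : ((m : ℂ) + 1) = ((m + 1 : ℕ) : ℂ) := by push_cast; rfl
  rw [this, Complex.norm_natCast]
  push_cast
  rfl

theorem norm_term_S (j : ℕ) {a : ℝ} {s : ℂ} (hs : a ≤ s.re) (m : ℕ) :
    ‖(σ 1 (m + 1) : ℂ) * ((m : ℂ) + 1) ^ j * exp (-((m : ℂ) + 1) * s)‖ ≤
      ((m : ℝ) + 1) ^ (j + 2) * Real.exp (-((m : ℝ) + 1) * a) := by
  rw [norm_mul, norm_mul, norm_pow, norm_cast]
  refine mul_le_mul ?_ (norm_exp_le hs m) (norm_nonneg _) (by positivity)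
  rw [pow_add, mul_comm]
  exact mul_le_mul_of_nonneg_left (norm_sigma m) (by positivity)

theorem norm_term_g {a : ℝ} {s : ℂ} (hs : a ≤ s.re) (m : ℕ) :
    ‖(σ 1 (m + 1) : ℂ) / ((m : ℂ) + 1) * exp (-((m : ℂ) + 1) * s)‖ ≤
      ((m : ℝ) + 1) ^ 2 * Real.exp (-((m : ℝ) + 1) * a) := by
  rw [norm_mul, norm_div, norm_cast]
  refine mul_le_mul ?_ (norm_exp_le hs m) (norm_nonneg _) (by positivity)
  have hm : (0 : ℝ) ≤ m := m.cast_nonneg
  refine (div_le_self (norm_nonneg _) (by linarith)).trans (norm_sigma m)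

theorem summable_S (j : ℕ) {s : ℂ} (hs : 0 < s.re) :
    Summable fun m : ℕ => (σ 1 (m + 1) : ℂ) * ((m : ℂ) + 1) ^ j * exp (-((m : ℂ) + 1) * s) :=
  .of_norm_bounded (summable_base (j + 2) hs) fun m => norm_term_S j le_rfl m

theorem summable_g {s : ℂ} (hs : 0 < s.re) :
    Summable fun m : ℕ => (σ 1 (m + 1) : ℂ) / ((m : ℂ) + 1) * exp (-((m : ℂ) + 1) * s) :=
  .of_norm_bounded (summable_base 2 hs) fun m => norm_term_g le_rfl m

/-! ### The derivatives -/

theorem isOpen_half (a : ℝ) : IsOpen {s : ℂ | a < s.re} := isOpen_lt continuous_const continuous_re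

theorem isPreconnected_half (a : ℝ) : IsPreconnected {s : ℂ | a < s.re} :=
  (convex_halfSpace_re_gt a).isPreconnected

theorem hasDerivAt_exp_mul (m : ℕ) (s : ℂ) :
    HasDerivAt (fun z : ℂ => exp (-((m : ℂ) + 1) * z))
      (exp (-((m : ℂ) + 1) * s) * (-((m : ℂ) + 1))) s := by
  have h := ((hasDerivAt_id s).const_mul (-((m : ℂ) + 1))).cexp
  simpa using h

theorem hasDerivAt_S (j : ℕ) {s : ℂ} (hs : 0 < s.re) : HasDerivAt (S j) (-(S (j + 1) s)) s := by
  have ha : 0 < s.re / 2 := by linarith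
  have hmem : s ∈ {z : ℂ | s.re / 2 < z.re} := by
    show s.re / 2 < s.re
    linarith
  have h := hasDerivAt_tsum_of_isPreconnected (𝕜 := ℂ) (F := ℂ) (t := {z : ℂ | s.re / 2 < z.re})
    (g := fun (m : ℕ) z => (σ 1 (m + 1) : ℂ) * ((m : ℂ) + 1) ^ j * exp (-((m : ℂ) + 1) * z))
    (g' := fun (m : ℕ) z =>
      -((σ 1 (m + 1) : ℂ) * ((m : ℂ) + 1) ^ (j + 1) * exp (-((m : ℂ) + 1) * z)))
    (y₀ := s) (y := s)
    (summable_base (j + 1 + 2) ha) (isOpen_half _) (isPreconnected_half _)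
    (fun m z _ => by
      refine ((hasDerivAt_exp_mul m z).const_mul
        ((σ 1 (m + 1) : ℂ) * ((m : ℂ) + 1) ^ j)).congr_deriv ?_
      ring)
    (fun m z hz => by
      rw [norm_neg]
      exact norm_term_S (j + 1) (le_of_lt hz) m)
    hmem (summable_S j hs) hmem
  rw [tsum_neg] at h
  exact h

theorem hasDerivAt_g {s : ℂ} (hs : 0 < s.re) : HasDerivAt g (-(S 0 s)) s := by
  have ha : 0 < s.re / 2 := by linarith
  have hmem : s ∈ {z : ℂ | s.re / 2 < z.re} := by
    show s.re / 2 < s.re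
    linarith
  have h := hasDerivAt_tsum_of_isPreconnected (𝕜 := ℂ) (F := ℂ) (t := {z : ℂ | s.re / 2 < z.re})
    (g := fun (m : ℕ) z => (σ 1 (m + 1) : ℂ) / ((m : ℂ) + 1) * exp (-((m : ℂ) + 1) * z))
    (g' := fun (m : ℕ) z =>
      -((σ 1 (m + 1) : ℂ) * ((m : ℂ) + 1) ^ 0 * exp (-((m : ℂ) + 1) * z)))
    (y₀ := s) (y := s)
    (summable_base (0 + 2) ha) (isOpen_half _) (isPreconnected_half _)
    (fun m z _ => by
      refine ((hasDerivAt_exp_mul m z).const_mul
        ((σ 1 (m + 1) : ℂ) / ((m : ℂ) + 1))).congr_deriv ?_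
      have hm : ((m : ℂ) + 1) ≠ 0 := by
        have h0 : (0 : ℝ) < ‖((m : ℂ) + 1)‖ := by rw [norm_cast]; positivity
        exact norm_pos_iff.1 h0
      field_simp)
    (fun m z hz => by
      rw [norm_neg]
      exact norm_term_S 0 (le_of_lt hz) m)
    hmem (summable_g hs) hmem
  rw [tsum_neg] at h
  exact h

theorem continuousOn_S (j : ℕ) : ContinuousOn (S j) {s : ℂ | 0 < s.re} := fun _ hs =>
  (hasDerivAt_S j hs).continuousAt.continuousWithinAt

theorem continuousOn_g : ContinuousOn g {s : ℂ | 0 < s.re} := fun _ hs =>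
  (hasDerivAt_g hs).continuousAt.continuousWithinAt

/-- `g` has the period `2 π i` -/
theorem g_periodic (s : ℂ) : g (s + 2 * π * I) = g s := by
  unfold g
  refine tsum_congr fun m => ?_
  congr 1
  have h1 : -((m : ℂ) + 1) * (s + 2 * π * I) =
      -((m : ℂ) + 1) * s + ((-((m : ℤ) + 1) : ℤ) : ℂ) * (2 * π * I) := by
    push_cast
    ring
  rw [h1, Complex.exp_add, Complex.exp_int_mul_two_pi_mul_I, mul_one]

/-! ### The integrals -/

/-- the integral over a period -/
noncomputable def cI (x : ℂ) (δ : ℝ) (k : ℤ) : ℂ :=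
  ∫ φ in (-π)..π, exp (x * g (δ + φ * I) + k * (δ + φ * I))

theorem re_path (δ φ : ℝ) : ((δ : ℂ) + φ * I).re = δ := by simp

theorem hasDerivAt_path (δ φ : ℝ) : HasDerivAt (fun y : ℝ => ((δ : ℂ) + y * I)) I φ := by
  have h := ((Complex.ofRealCLM.hasDerivAt (x := φ)).mul_const I).const_add (δ : ℂ)
  simpa using h

theorem continuous_path (δ : ℝ) : Continuous (fun y : ℝ => ((δ : ℂ) + y * I)) := by fun_prop

theorem continuous_g_path {δ : ℝ} (hδ : 0 < δ) : Continuous (fun y : ℝ => g ((δ : ℂ) + y * I)) :=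
  continuousOn_g.comp_continuous (continuous_path δ) fun y => by
    show 0 < ((δ : ℂ) + y * I).re
    rw [re_path]; exact hδ

theorem continuous_S_path (j : ℕ) {δ : ℝ} (hδ : 0 < δ) :
    Continuous (fun y : ℝ => S j ((δ : ℂ) + y * I)) :=
  (continuousOn_S j).comp_continuous (continuous_path δ) fun y => by
    show 0 < ((δ : ℂ) + y * I).re
    rw [re_path]; exact hδ

theorem continuous_h (x : ℂ) {δ : ℝ} (hδ : 0 < δ) (k : ℂ) :
    Continuous (fun φ : ℝ => exp (x * g (δ + φ * I) + k * (δ + φ * I))) := by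
  have := continuous_g_path hδ
  fun_prop

/-- integration by parts -/
theorem cI_mul (x : ℂ) {δ : ℝ} (hδ : 0 < δ) (k : ℤ) :
    (k : ℂ) * cI x δ k =
      x * ∫ φ in (-π)..π, S 0 (δ + φ * I) * exp (x * g (δ + φ * I) + k * (δ + φ * I)) := by
  have hd : ∀ φ : ℝ, HasDerivAt (fun y : ℝ => exp (x * g (δ + y * I) + k * (δ + y * I)))
      (exp (x * g (δ + φ * I) + k * (δ + φ * I)) *
        ((x * (-(S 0 (δ + φ * I))) + k) * I)) φ := by
    intro φ
    have h1 : HasDerivAt (fun y : ℝ => g (δ + y * I)) (-(S 0 (δ + φ * I)) * I) φ := by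
      have h2 := hasDerivAt_g (s := (δ : ℂ) + φ * I) (by rw [re_path]; exact hδ)
      exact h2.comp (φ : ℝ) (hasDerivAt_path δ φ)
    have h3 := ((h1.const_mul x).add ((hasDerivAt_path δ φ).const_mul (k : ℂ))).cexp
    refine h3.congr_deriv ?_
    simp only [Pi.add_apply]
    ring
  have hc := continuous_h x hδ (k : ℂ)
  have hS := continuous_S_path 0 hδ
  have hint := intervalIntegral.integral_eq_sub_of_hasDerivAt (a := -π) (b := π)
    (fun φ _ => hd φ) (Continuous.intervalIntegrable (by fun_prop) _ _)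
  have hper : exp (x * g (δ + (π : ℝ) * I) + k * (δ + (π : ℝ) * I)) =
      exp (x * g (δ + ((-π : ℝ) : ℂ) * I) + k * (δ + ((-π : ℝ) : ℂ) * I)) := by
    have e1 : (δ : ℂ) + (π : ℝ) * I = (δ + ((-π : ℝ) : ℂ) * I) + 2 * π * I := by
      push_cast
      ring
    rw [e1, g_periodic]
    have e2 : x * g (δ + ((-π : ℝ) : ℂ) * I) + k * (δ + ((-π : ℝ) : ℂ) * I + 2 * π * I) =
        x * g (δ + ((-π : ℝ) : ℂ) * I) + k * (δ + ((-π : ℝ) : ℂ) * I) + k * (2 * π * I) := by ring
    rw [e2, Complex.exp_add _ (k * (2 * π * I)), Complex.exp_int_mul_two_pi_mul_I, mul_one]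
  rw [hper, sub_self] at hint
  have e3 : ∀ φ : ℝ, exp (x * g (δ + φ * I) + k * (δ + φ * I)) *
        ((x * (-(S 0 (δ + φ * I))) + k) * I) =
      (k * I) * exp (x * g (δ + φ * I) + k * (δ + φ * I)) -
        (x * I) * (S 0 (δ + φ * I) * exp (x * g (δ + φ * I) + k * (δ + φ * I))) := by
    intro φ
    ring
  rw [intervalIntegral.integral_congr (fun φ _ => e3 φ), intervalIntegral.integral_sub
    (Continuous.intervalIntegrable (by fun_prop) _ _)
    (Continuous.intervalIntegrable (by fun_prop) _ _), intervalIntegral.integral_const_mul,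
    intervalIntegral.integral_const_mul] at hint
  have h4 : I * (k * cI x δ k) = I *
      (x * ∫ φ in (-π)..π, S 0 (δ + φ * I) * exp (x * g (δ + φ * I) + k * (δ + φ * I))) := by
    unfold cI
    linear_combination hint
  exact mul_left_cancel₀ I_ne_zero h4

/-- the sum and the integral -/
theorem hasSum_cI (x : ℂ) {δ : ℝ} (hδ : 0 < δ) (k : ℤ) :
    HasSum (fun m : ℕ => (σ 1 (m + 1) : ℂ) * cI x δ (k - (m + 1)))
      (∫ φ in (-π)..π, S 0 (δ + φ * I) * exp (x * g (δ + φ * I) + k * (δ + φ * I))) := by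
  have hc := continuous_h x hδ (k : ℂ)
  obtain ⟨C, hC⟩ : ∃ C : ℝ, ∀ φ ∈ Set.Icc (-π) π,
      ‖exp (x * g (δ + φ * I) + k * (δ + φ * I))‖ ≤ C :=
    isCompact_Icc.exists_bound_of_continuousOn hc.continuousOn
  have hsum := summable_base 2 hδ
  have hmain := intervalIntegral.hasSum_integral_of_dominated_convergence (a := -π) (b := π)
    (μ := volume) (ι := ℕ)
    (F := fun (m : ℕ) (φ : ℝ) => ((σ 1 (m + 1) : ℂ) * ((m : ℂ) + 1) ^ 0 *
      exp (-((m : ℂ) + 1) * (δ + φ * I))) * exp (x * g (δ + φ * I) + k * (δ + φ * I)))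
    (f := fun φ : ℝ => S 0 (δ + φ * I) * exp (x * g (δ + φ * I) + k * (δ + φ * I)))
    (fun m _ => ((m : ℝ) + 1) ^ 2 * Real.exp (-((m : ℝ) + 1) * δ) * C)
    (fun m => (Continuous.aestronglyMeasurable (by fun_prop)))
    (fun m => Eventually.of_forall fun φ hφ => by
      rw [norm_mul]
      rw [Set.uIoc_of_le (by linarith [Real.pi_pos])] at hφ
      refine mul_le_mul (norm_term_S 0 (le_of_eq (re_path δ φ).symm) m)
        (hC φ ⟨hφ.1.le, hφ.2⟩) (norm_nonneg _) (by positivity))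
    (Eventually.of_forall fun φ _ => hsum.mul_right C)
    (Continuous.intervalIntegrable continuous_const _ _)
    (Eventually.of_forall fun φ _ =>
      (summable_S 0 (s := (δ : ℂ) + φ * I) (by rw [re_path]; exact hδ)).hasSum.mul_right _)
  suffices he : ∀ m : ℕ, (σ 1 (m + 1) : ℂ) * cI x δ (k - (m + 1)) =
      ∫ φ in (-π)..π, ((σ 1 (m + 1) : ℂ) * ((m : ℂ) + 1) ^ 0 *
        exp (-((m : ℂ) + 1) * (δ + φ * I))) * exp (x * g (δ + φ * I) + k * (δ + φ * I)) by
    rw [show (fun m : ℕ => (σ 1 (m + 1) : ℂ) * cI x δ (k - (m + 1))) = _ from funext he]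
    exact hmain
  intro m
  unfold cI
  rw [← intervalIntegral.integral_const_mul]
  refine intervalIntegral.integral_congr fun φ _ => ?_
  show (σ 1 (m + 1) : ℂ) * exp (x * g (δ + φ * I) + ((k - (m + 1) : ℤ) : ℂ) * (δ + φ * I)) =
    ((σ 1 (m + 1) : ℂ) * ((m : ℂ) + 1) ^ 0 *
      exp (-((m : ℂ) + 1) * (δ + φ * I))) * exp (x * g (δ + φ * I) + k * (δ + φ * I))
  rw [pow_zero, mul_one, mul_assoc, ← Complex.exp_add]
  congr 2
  push_cast
  ring

/-- the product as a function of `q` -/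
noncomputable def G (q : ℂ) : ℂ := ∑' m : ℕ, (σ 1 (m + 1) : ℂ) / ((m : ℂ) + 1) * q ^ (m + 1)

theorem G_exp (s : ℂ) : G (exp (-s)) = g s := by
  unfold G g
  refine tsum_congr fun m => ?_
  rw [← Complex.exp_nat_mul]
  congr 2
  push_cast
  ring

theorem G_zero : G 0 = 0 := by
  unfold G
  have h : ∀ m : ℕ, (σ 1 (m + 1) : ℂ) / ((m : ℂ) + 1) * 0 ^ (m + 1) = 0 := fun m => by
    rw [zero_pow (Nat.succ_ne_zero m), mul_zero]
  rw [tsum_congr h, tsum_zero]

theorem differentiableOn_G {a : ℝ} (ha : 0 < a) :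
    DifferentiableOn ℂ G (Metric.ball 0 (Real.exp (-a))) := by
  refine differentiableOn_tsum_of_summable_norm (summable_base 2 ha)
    (fun m => (Differentiable.differentiableOn (by fun_prop))) Metric.isOpen_ball
    fun m w hw => ?_
  have h1 : ‖w‖ ≤ Real.exp (-a) := by
    rw [Metric.mem_ball, dist_zero_right] at hw
    exact hw.le
  rw [norm_mul, norm_div, norm_cast, norm_pow]
  have hm : (0 : ℝ) ≤ m := m.cast_nonneg
  refine mul_le_mul ((div_le_self (norm_nonneg _) (by linarith)).trans (norm_sigma m)) ?_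
    (by positivity) (by positivity)
  refine (pow_le_pow_left₀ (norm_nonneg _) h1 _).trans (le_of_eq ?_)
  rw [← Real.exp_nat_mul]
  congr 1
  push_cast
  ring

theorem cI_nonpos (x : ℂ) {δ : ℝ} (hδ : 0 < δ) (k : ℕ) :
    cI x δ (-(k : ℤ)) = if k = 0 then 2 * (π : ℂ) else 0 := by
  have hF : DiffContOnCl ℂ (fun q : ℂ => exp (x * G q) * q ^ k) (Metric.ball 0 |Real.exp (-δ)|) := by
    have h1 : DifferentiableOn ℂ (fun q : ℂ => exp (x * G q) * q ^ k)
        (Metric.ball 0 (Real.exp (-(δ / 2)))) := by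
      have := differentiableOn_G (a := δ / 2) (by linarith)
      fun_prop
    refine h1.diffContOnCl_ball ?_
    rw [abs_of_pos (Real.exp_pos _)]
    exact Metric.closedBall_subset_ball (Real.exp_lt_exp.2 (by linarith))
  have h2 := hF.circleAverage
  have h3 : cI x δ (-(k : ℤ)) = ∫ θ in (0 : ℝ)..2 * π,
      (fun q : ℂ => exp (x * G q) * q ^ k) (circleMap 0 (Real.exp (-δ)) θ) := by
    have hper : Function.Periodic (fun θ : ℝ =>
        (fun q : ℂ => exp (x * G q) * q ^ k) (circleMap 0 (Real.exp (-δ)) θ)) (2 * π) := by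
      intro θ
      simp only [periodic_circleMap 0 (Real.exp (-δ)) θ]
    have h4 := hper.intervalIntegral_add_eq (-π) 0
    rw [zero_add, show -π + 2 * π = π by ring] at h4
    rw [← h4]
    have h5 := intervalIntegral.integral_comp_neg (a := -π) (b := π) (fun θ : ℝ =>
        (fun q : ℂ => exp (x * G q) * q ^ k) (circleMap 0 (Real.exp (-δ)) θ))
    rw [neg_neg] at h5
    rw [← h5]
    unfold cI
    refine intervalIntegral.integral_congr fun φ _ => ?_
    have h6 : circleMap 0 (Real.exp (-δ)) (-φ) = exp (-((δ : ℂ) + φ * I)) := by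
      unfold circleMap
      rw [zero_add, Complex.ofReal_exp, ← Complex.exp_add]
      congr 1
      push_cast
      ring
    show exp (x * g (δ + φ * I) + ((-(k : ℤ) : ℤ) : ℂ) * (δ + φ * I)) =
      exp (x * G (circleMap 0 (Real.exp (-δ)) (-φ))) * (circleMap 0 (Real.exp (-δ)) (-φ)) ^ k
    rw [h6, G_exp, ← Complex.exp_nat_mul, ← Complex.exp_add]
    congr 1
    push_cast
    ring
  rw [Real.circleAverage_def, ← h3] at h2
  have h7 : cI x δ (-(k : ℤ)) = (2 * π : ℝ) • (exp (x * G 0) * 0 ^ k) := by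
    rw [← h2, smul_smul, mul_inv_cancel₀ (by positivity), one_smul]
  rw [h7, G_zero, mul_zero, Complex.exp_zero, one_mul]
  by_cases hk : k = 0
  · rw [hk, pow_zero, if_pos rfl]
    simp
  · rw [if_neg hk, zero_pow hk, smul_zero]

theorem cI_eq (x : ℂ) {δ : ℝ} (hδ : 0 < δ) (n : ℕ) : cI x δ n = 2 * π * P x n := by
  induction n using Nat.strong_induction_on with
  | _ n ih =>
    cases n with
    | zero =>
      have h := cI_nonpos x hδ 0
      rw [if_pos rfl] at h
      simpa [P] using h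
    | succ n =>
      have h1 := cI_mul x hδ ((n + 1 : ℕ) : ℤ)
      rw [← (hasSum_cI x hδ ((n + 1 : ℕ) : ℤ)).tsum_eq] at h1
      have h2 : ∀ m : ℕ, m ∉ Finset.range (n + 1) →
          (σ 1 (m + 1) : ℂ) * cI x δ (((n + 1 : ℕ) : ℤ) - (m + 1)) = 0 := by
        intro m hm
        rw [Finset.mem_range, not_lt] at hm
        obtain ⟨i, rfl⟩ := Nat.exists_eq_add_of_le hm
        have e1 : ((n + 1 : ℕ) : ℤ) - (((n + 1 + i : ℕ) : ℤ) + 1) = -((i + 1 : ℕ) : ℤ) := by
          push_cast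
          ring
        rw [e1, cI_nonpos x hδ (i + 1), if_neg (Nat.succ_ne_zero i), mul_zero]
      rw [tsum_eq_sum h2, Finset.sum_range] at h1
      have h3 : ∀ m : Fin (n + 1), (σ 1 ((m : ℕ) + 1) : ℂ) *
          cI x δ (((n + 1 : ℕ) : ℤ) - ((m : ℕ) + 1)) =
          2 * π * ((σ 1 ((m : ℕ) + 1) : ℂ) * P x (n - m)) := by
        intro m
        have hm : (m : ℕ) ≤ n := Nat.lt_succ_iff.1 m.2
        have e1 : ((n + 1 : ℕ) : ℤ) - (((m : ℕ) : ℤ) + 1) = ((n - m : ℕ) : ℤ) := by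
          rw [Nat.cast_sub hm]
          push_cast
          ring
        rw [e1, ih (n - m) (by omega)]
        ring
      rw [Finset.sum_congr rfl fun m _ => h3 m, ← Finset.mul_sum] at h1
      have hn : ((n : ℂ) + 1) ≠ 0 := by
        have h0 : (0 : ℝ) < ‖((n : ℂ) + 1)‖ := by rw [norm_cast]; positivity
        exact norm_pos_iff.1 h0
      rw [P]
      have h4 : (((n + 1 : ℕ) : ℤ) : ℂ) = (n : ℂ) + 1 := by push_cast; rfl
      rw [h4] at h1
      field_simp
      rw [mul_comm (cI x δ _), h1]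
      ring

/-- **The coefficient integral.** -/
theorem coeff_int (x : ℂ) (n : ℕ) {δ : ℝ} (hδ : 0 < δ) :
    2 * π * P x n = ∫ φ in (-π)..π, exp (x * g (δ + φ * I) + n * (δ + φ * I)) := by
  rw [← cI_eq x hδ n]
  rfl

end Pool.Agent.KS6_41.DA.M1
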