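import Pool.Agent.KS6_41.DA.Defs

/-!
# Calculus of the series `g` and `S j`
-/

set_option autoImplicit false

namespace Pool.Agent.KS6_41.DA

open scoped ArithmeticFunction.sigma Real
open Complex

lemma sigma_le (m : ℕ) : σ 1 m ≤ m ^ 2 := by
  rw [ArithmeticFunction.sigma_one_apply]
  calc ∑ d ∈ m.divisors, d ≤ ∑ d ∈ m.divisors, m :=
        Finset.sum_le_sum fun d hd => Nat.divisor_le hd
    _ = m.divisors.card * m := by rw [Finset.sum_const, smul_eq_mul]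
    _ ≤ m * m := Nat.mul_le_mul_right _ (Nat.card_divisors_le_self m)
    _ = m ^ 2 := by ring

lemma summable_exp_pow (K : ℕ) {δ : ℝ} (hδ : 0 < δ) :
    Summable fun m : ℕ => ((m : ℝ) + 1) ^ K * Real.exp (-((m : ℝ) + 1) * δ) := by
  have h := summable_pow_mul_geometric_of_norm_lt_one (R := ℝ) K (r := Real.exp (-δ))
    (by rw [Real.norm_eq_abs, abs_of_pos (Real.exp_pos _)]; rw [Real.exp_lt_one_iff]; linarith)
  have h2 := (summable_nat_add_iff 1).2 h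
  refine h2.congr fun m => ?_
  push_cast
  rw [← Real.exp_nat_mul]
  push_cast
  ring_nf

lemma norm_exp_term (m : ℕ) (s : ℂ) :
    ‖exp (-((m : ℂ) + 1) * s)‖ = Real.exp (-((m : ℝ) + 1) * s.re) := by
  rw [Complex.norm_exp]
  congr 1
  have : (-((m : ℂ) + 1) * s).re = -((m : ℝ) + 1) * s.re := by
    have : (-((m : ℂ) + 1)) = ((-((m : ℝ) + 1) : ℝ) : ℂ) := by push_cast; ring
    rw [this, Complex.re_ofReal_mul]
  exact this

/-- termwise differentiation -/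
lemma hasDerivAt_series {a : ℕ → ℂ} {K : ℕ} (ha : ∀ m, ‖a m‖ ≤ ((m : ℝ) + 1) ^ K) {s : ℂ}
    (hs : 0 < s.re) :
    HasDerivAt (fun z : ℂ => ∑' m : ℕ, a m * exp (-((m : ℂ) + 1) * z))
      (∑' m : ℕ, a m * (-((m : ℂ) + 1)) * exp (-((m : ℂ) + 1) * s)) s := by
  set δ := s.re / 2 with hδ
  have hδ0 : 0 < δ := by positivity
  have hop : IsOpen {z : ℂ | δ < z.re} := isOpen_lt continuous_const continuous_re
  have hpc : IsPreconnected {z : ℂ | δ < z.re} :=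
    (convex_halfSpace_re_gt δ).isPreconnected
  have hsm : s ∈ {z : ℂ | δ < z.re} := by
    change δ < s.re; linarith
  refine hasDerivAt_tsum_of_isPreconnected (𝕜 := ℂ) (F := ℂ)
    (g := fun (m : ℕ) (z : ℂ) => a m * exp (-((m : ℂ) + 1) * z))
    (g' := fun (m : ℕ) (z : ℂ) => a m * (-((m : ℂ) + 1)) * exp (-((m : ℂ) + 1) * z))
    (u := fun m : ℕ => ((m : ℝ) + 1) ^ (K + 1) * Real.exp (-((m : ℝ) + 1) * δ))
    (summable_exp_pow (K + 1) hδ0) hop hpc (fun m z _ => ?_) (fun m z hz => ?_) hsm ?_ hsm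
  · have h1 : HasDerivAt (fun z : ℂ => -((m : ℂ) + 1) * z) (-((m : ℂ) + 1)) z := by
      simpa using (hasDerivAt_id z).const_mul (-((m : ℂ) + 1))
    have h2 := (h1.cexp).const_mul (a m)
    have e : a m * (-((m : ℂ) + 1)) * exp (-((m : ℂ) + 1) * z) =
        a m * (exp (-((m : ℂ) + 1) * z) * (-((m : ℂ) + 1))) := by ring
    rw [e]
    exact h2
  · rw [norm_mul, norm_mul, norm_exp_term]
    have h1 : ‖(-((m : ℂ) + 1))‖ = (m : ℝ) + 1 := by
      rw [norm_neg]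
      have : ((m : ℂ) + 1) = ((m + 1 : ℕ) : ℂ) := by push_cast; ring
      rw [this, Complex.norm_natCast]; push_cast; ring
    rw [h1, pow_succ]
    have hz' : δ < z.re := hz
    have h3 : Real.exp (-((m : ℝ) + 1) * z.re) ≤ Real.exp (-((m : ℝ) + 1) * δ) := by
      apply Real.exp_le_exp.2
      nlinarith [Nat.cast_nonneg (α := ℝ) m]
    have := ha m
    gcongr
  · refine Summable.of_norm_bounded (summable_exp_pow K hs) fun m => ?_
    rw [norm_mul, norm_exp_term]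
    have := ha m
    gcongr

lemma coef_bound (j m : ℕ) : ‖((σ 1 (m + 1) : ℕ) : ℂ) * ((m : ℂ) + 1) ^ j‖ ≤
    ((m : ℝ) + 1) ^ (j + 2) := by
  have h1 : ‖((m : ℂ) + 1)‖ = (m : ℝ) + 1 := by
    have : ((m : ℂ) + 1) = ((m + 1 : ℕ) : ℂ) := by push_cast; ring
    rw [this, Complex.norm_natCast]; push_cast; ring
  rw [norm_mul, norm_pow, h1, Complex.norm_natCast]
  have h2 : ((σ 1 (m + 1) : ℕ) : ℝ) ≤ ((m : ℝ) + 1) ^ 2 := by
    have := sigma_le (m + 1)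
    exact_mod_cast this
  rw [pow_add, mul_comm]
  gcongr

lemma coef_bound_g (m : ℕ) : ‖((σ 1 (m + 1) : ℕ) : ℂ) / ((m : ℂ) + 1)‖ ≤ ((m : ℝ) + 1) ^ 2 := by
  have h1 : ‖((m : ℂ) + 1)‖ = (m : ℝ) + 1 := by
    have : ((m : ℂ) + 1) = ((m + 1 : ℕ) : ℂ) := by push_cast; ring
    rw [this, Complex.norm_natCast]; push_cast; ring
  rw [norm_div, h1, Complex.norm_natCast]
  have h2 : ((σ 1 (m + 1) : ℕ) : ℝ) ≤ ((m : ℝ) + 1) ^ 2 := by
    have := sigma_le (m + 1)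
    exact_mod_cast this
  have h3 : (0 : ℝ) ≤ m := Nat.cast_nonneg m
  rw [div_le_iff₀ (by positivity)]
  nlinarith [sq_nonneg ((m : ℝ) + 1), mul_nonneg (sq_nonneg ((m : ℝ) + 1)) h3]

lemma hasDerivAt_S (j : ℕ) {s : ℂ} (hs : 0 < s.re) : HasDerivAt (S j) (-(S (j + 1) s)) s := by
  have h := hasDerivAt_series (a := fun m => ((σ 1 (m + 1) : ℕ) : ℂ) * ((m : ℂ) + 1) ^ j)
    (coef_bound j) hs
  have e : -(S (j + 1) s) = ∑' m : ℕ, ((σ 1 (m + 1) : ℕ) : ℂ) * ((m : ℂ) + 1) ^ j *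
      (-((m : ℂ) + 1)) * exp (-((m : ℂ) + 1) * s) := by
    rw [S, ← tsum_neg]
    refine tsum_congr fun m => ?_
    rw [pow_succ]; ring
  rw [e]
  exact h

lemma hasDerivAt_g {s : ℂ} (hs : 0 < s.re) : HasDerivAt g (-(S 0 s)) s := by
  have h := hasDerivAt_series (a := fun m => ((σ 1 (m + 1) : ℕ) : ℂ) / ((m : ℂ) + 1))
    coef_bound_g hs
  have e : -(S 0 s) = ∑' m : ℕ, ((σ 1 (m + 1) : ℕ) : ℂ) / ((m : ℂ) + 1) *
      (-((m : ℂ) + 1)) * exp (-((m : ℂ) + 1) * s) := by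
    rw [S, ← tsum_neg]
    refine tsum_congr fun m => ?_
    have : ((m : ℂ) + 1) ≠ 0 := by exact_mod_cast Nat.succ_ne_zero m
    field_simp
  rw [e]
  exact h

lemma summable_S (j : ℕ) {s : ℂ} (hs : 0 < s.re) :
    Summable fun m : ℕ => ((σ 1 (m + 1) : ℕ) : ℂ) * ((m : ℂ) + 1) ^ j *
      exp (-((m : ℂ) + 1) * s) := by
  refine Summable.of_norm_bounded (summable_exp_pow (j + 2) hs) fun m => ?_
  rw [norm_mul, norm_exp_term]
  have := coef_bound j m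
  gcongr

lemma summable_g {s : ℂ} (hs : 0 < s.re) :
    Summable fun m : ℕ => ((σ 1 (m + 1) : ℕ) : ℂ) / ((m : ℂ) + 1) *
      exp (-((m : ℂ) + 1) * s) := by
  refine Summable.of_norm_bounded (summable_exp_pow 2 hs) fun m => ?_
  rw [norm_mul, norm_exp_term]
  have := coef_bound_g m
  gcongr

lemma continuousAt_g {s : ℂ} (hs : 0 < s.re) : ContinuousAt g s := (hasDerivAt_g hs).continuousAt

lemma continuousAt_S (j : ℕ) {s : ℂ} (hs : 0 < s.re) : ContinuousAt (S j) s :=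
  (hasDerivAt_S j hs).continuousAt

/-- `‖S j s‖ ≤ S j (Re s)` with real summands -/
lemma norm_S_le (j : ℕ) {s : ℂ} (hs : 0 < s.re) :
    ‖S j s‖ ≤ ∑' m : ℕ, ((σ 1 (m + 1) : ℕ) : ℝ) * ((m : ℝ) + 1) ^ j *
      Real.exp (-((m : ℝ) + 1) * s.re) := by
  have h1 : ∀ m : ℕ, ‖((σ 1 (m + 1) : ℕ) : ℂ) * ((m : ℂ) + 1) ^ j * exp (-((m : ℂ) + 1) * s)‖ =
      ((σ 1 (m + 1) : ℕ) : ℝ) * ((m : ℝ) + 1) ^ j * Real.exp (-((m : ℝ) + 1) * s.re) := by
    intro m
    have h1 : ‖((m : ℂ) + 1)‖ = (m : ℝ) + 1 := by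
      have : ((m : ℂ) + 1) = ((m + 1 : ℕ) : ℂ) := by push_cast; ring
      rw [this, Complex.norm_natCast]; push_cast; ring
    rw [norm_mul, norm_mul, norm_pow, h1, Complex.norm_natCast, norm_exp_term]
  rw [S]
  refine (norm_tsum_le_tsum_norm ?_).trans (le_of_eq (tsum_congr h1))
  exact (summable_S j hs).norm

end Pool.Agent.KS6_41.DA
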